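import Mathlib
import Pool.Agent.H.MP_9fc12a_nt.B

namespace Pool.Agent.Results.MP_9fc12a_nt.Bound

open Polynomial

noncomputable def S (n : ℕ) : ℤ[X] := Nat.ofDigits (X : ℤ[X]) (Nat.digits 2 n)

noncomputable def H (n : ℕ) : ℤ[X] := (Matrix.of fun i j : Fin n => S (i + j)).det

theorem result (n : ℕ) (hn : 2 ≤ n) (t : ℂ) (ht : aeval t (H n) = 0) : ‖t‖ ≤ 4 := by
  by_contra h
  refine Pool.Agent.H.MP_9fc12a_nt.H_ne t (not_le.1 h) n hn ?_
  have h1 := Pool.Agent.Lib.helper11.Det.map_D (aeval t : ℤ[X] →ₐ[ℤ] ℂ).toRingHom n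
    (fun i j => Pool.Agent.H.MP_9fc12a_nt.S X (i + j))
  simp only [Pool.Agent.H.MP_9fc12a_nt.map_S] at h1
  simp only [AlgHom.toRingHom_eq_coe, RingHom.coe_coe, aeval_X] at h1
  exact h1.symm.trans ht

end Pool.Agent.Results.MP_9fc12a_nt.Bound
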